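import Pool.Agent.H.MP_629379_al.B

namespace Pool.Agent.Results.MP_629379_al.Counter

open Pool.Agent.H.MP_629379_al

theorem result (K : Type) [Field K] [IsAlgClosed K] [CharZero K] :
    ∃ T : ℕ → Subgroup (Fin 4 → GL (Fin 2) K), (∀ m, IsMaxTorus (XX K) (T m)) ∧
      ∀ (m m' : ℕ) (σ : (Fin 4 → GL (Fin 2) K) ≃* (Fin 4 → GL (Fin 2) K)),
        σ '' XX K = XX K → (T m).map σ.toMonoidHom = T m' → m = m' := by
  have ex : ∀ m : ℕ, ∃ θ : Kˣ, IsPrimitiveRoot (θ : K) (4 * (m + 1)) := by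
    intro m
    haveI : NeZero (4 * (m + 1)) := ⟨by omega⟩
    haveI : NeZero ((4 * (m + 1) : ℕ) : K) := ⟨Nat.cast_ne_zero.2 (by omega)⟩
    obtain ⟨z, hz⟩ := HasEnoughRootsOfUnity.exists_primitiveRoot K (4 * (m + 1))
    exact ⟨Units.mk0 z (hz.ne_zero (by omega)), hz⟩
  choose θ hθ using ex
  refine ⟨fun m => TT (θ m), fun m => TT_max _ ?_, fun m m' σ h1 h2 => ?_⟩
  · exact (hθ m).pow_ne_one_of_pos_of_lt (by omega) (by omega)
  · have key : ∀ k, 4 * (m + 1) ∣ 2 * (2 * k) ↔ 4 * (m' + 1) ∣ 2 * (2 * k) := by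
      intro k
      rw [← (hθ m).pow_eq_one_iff_dvd, ← (hθ m').pow_eq_one_iff_dvd, ← PP_iff, ← PP_iff,
        PP_map σ h1, h2]
    have a := Nat.le_of_dvd (by omega) ((key (m + 1)).1 ⟨1, by ring⟩)
    have b := Nat.le_of_dvd (by omega) ((key (m' + 1)).2 ⟨1, by ring⟩)
    omega

end Pool.Agent.Results.MP_629379_al.Counter
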